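import Mathlib
import Pool.Agent.H348R6.GV2

set_option autoImplicit false

/-! A `κ`-complete filter extending the club filter, generated with the help of a strongly
`κ`-independent family of `2 ^ κ` sets, when `κ ^ (< κ) = κ`. -/

namespace Pool.Agent.K1H68.Galvin

open Cardinal Set Pool.Agent.H348R6.GV

universe u

variable {κ : Cardinal.{u}}

/-- The index set of the independent family: a bound `b` and an `Iio c`-indexed list of
subsets of `Iio b` (or nothing). -/
abbrev Z (κ : Cardinal.{u}) : Type u :=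
  Σ b : κ.ord.ToType, Σ c : κ.ord.ToType, (Iio c → Option (Set (Iio b)))

/-- The trace of `f` on `Iio b`. -/
def tr (b : κ.ord.ToType) (f : Set κ.ord.ToType) : Set (Iio b) := {x | x.1 ∈ f}

/-- `f` is accepted by `z`. -/
def Acc (z : Z κ) (f : Set κ.ord.ToType) : Prop := ∃ i, z.2.2 i = some (tr z.1 f)

theorem mk_Z_le (hκ : κ.IsRegular) (hp : ∀ μ < κ, (2 : Cardinal.{u}) ^ μ ≤ κ) : #(Z κ) ≤ κ := by
  have h1 : ∀ b c : κ.ord.ToType, #(Iio c → Option (Set (Iio b))) ≤ κ := by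
    intro b c
    have hb : #(Iio b) < κ := mk_Iio_toType_ord_lt b
    have hc : #(Iio c) < κ := mk_Iio_toType_ord_lt c
    have h2 : #(Option (Set (Iio b))) ≤ 2 ^ (#(Iio b) + 1) := by
      rw [mk_option, mk_set, power_add, power_one]
      have : (1 : Cardinal.{u}) ≤ 2 ^ #(Iio b) := by
        have := power_le_power_left (two_ne_zero) (zero_le (a := #(Iio b)))
        simpa using this
      calc (2 : Cardinal.{u}) ^ #(Iio b) + 1 ≤ 2 ^ #(Iio b) + 2 ^ #(Iio b) := by gcongr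
        _ = 2 ^ #(Iio b) * 2 := by rw [mul_two]
    have h3 : (#(Iio b) + 1) * #(Iio c) < κ :=
      mul_lt_of_lt hκ.aleph0_le
        (add_lt_of_lt hκ.aleph0_le hb (one_lt_aleph0.trans_le hκ.aleph0_le)) hc
    calc #(Iio c → Option (Set (Iio b))) = #(Option (Set (Iio b))) ^ #(Iio c) := by
          rw [← power_def]
      _ ≤ (2 ^ (#(Iio b) + 1)) ^ #(Iio c) := power_le_power_right h2
      _ = 2 ^ ((#(Iio b) + 1) * #(Iio c)) := by rw [power_mul]
      _ ≤ κ := hp _ h3
  have hX : #κ.ord.ToType = κ := by rw [Cardinal.mk_toType, card_ord]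
  rw [Z, mk_sigma]
  calc sum (fun b : κ.ord.ToType => #(Σ c : κ.ord.ToType, (Iio c → Option (Set (Iio b)))))
      ≤ sum (fun _ : κ.ord.ToType => κ) := by
        refine sum_le_sum _ _ fun b => ?_
        rw [mk_sigma]
        calc sum (fun c : κ.ord.ToType => #(Iio c → Option (Set (Iio b))))
            ≤ sum (fun _ : κ.ord.ToType => κ) := sum_le_sum _ _ fun c => h1 b c
          _ = κ * κ := by rw [sum_const', hX]
          _ = κ := mul_eq_self hκ.aleph0_le
    _ = κ * κ := by rw [sum_const', hX]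
    _ = κ := mul_eq_self hκ.aleph0_le

/-- Fewer than `κ` sets `f j` (`j ∈ J`) and a further set `f` are separated by some `z`. -/
theorem exists_sep (hκ : κ.IsRegular) (J : Set (Set κ.ord.ToType)) (hJ : #J < κ)
    (f : Set κ.ord.ToType) (hf : f ∉ J) : ∃ z : Z κ, (∀ j ∈ J, Acc z j) ∧ ¬ Acc z f := by
  classical
  have hne : ∀ j : J, ∃ x : κ.ord.ToType, ¬ (x ∈ j.1 ↔ x ∈ f) := by
    rintro ⟨j, hj⟩
    by_contra hcon
    push Not at hcon
    exact hf ((Set.ext hcon : j = f) ▸ hj)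
  choose x hx using hne
  obtain ⟨b, hb⟩ := bdd_of_lt hκ x hJ
  -- an initial segment at least as large as `J`
  obtain ⟨c, ⟨e⟩⟩ : ∃ c : κ.ord.ToType, Nonempty (J ↪ Iio c) := by
    have h1 : (#J).ord < κ.ord := ord_lt_ord.2 hJ
    have h2 : (#J).ord < Ordinal.type (α := κ.ord.ToType) (· < ·) := by
      rwa [Ordinal.type_toType]
    obtain ⟨c, hc⟩ := Ordinal.typein_surj (α := κ.ord.ToType) (· < ·) h2
    refine ⟨c, ?_⟩
    have h3 : #(Iio c) = #J := by
      have h4 : (Ordinal.typein (α := κ.ord.ToType) (· < ·) c).card = #(Iio c) := rfl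
      rw [← h4, hc, card_ord]
    exact h3.ge
  refine ⟨⟨b, c, fun i => if h : ∃ j : J, e j = i then some (tr b h.choose.1) else none⟩, ?_, ?_⟩
  · intro j hj
    refine ⟨e ⟨j, hj⟩, ?_⟩
    have hex : ∃ j' : J, e j' = e ⟨j, hj⟩ := ⟨⟨j, hj⟩, rfl⟩
    have h1 : hex.choose = ⟨j, hj⟩ := e.injective hex.choose_spec
    show (if h : ∃ j' : J, e j' = e ⟨j, hj⟩ then some (tr b h.choose.1) else none) = _
    rw [dif_pos hex, h1]
  · rintro ⟨i, hi⟩
    change (if h : ∃ j' : J, e j' = i then some (tr b h.choose.1) else none) = some (tr b f) at hi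
    by_cases hex : ∃ j' : J, e j' = i
    · rw [dif_pos hex] at hi
      have h1 : tr b hex.choose.1 = tr b f := Option.some.inj hi
      have h2 := hx hex.choose
      have h3 : (⟨x hex.choose, hb _⟩ : Iio b) ∈ tr b hex.choose.1 ↔
          (⟨x hex.choose, hb _⟩ : Iio b) ∈ tr b f := by rw [h1]
      exact h2 h3
    · rw [dif_neg hex] at hi
      exact absurd hi (by simp)

/-- The filter of the construction. -/
def flt (hκ : κ.IsRegular) (t : Z κ → Set κ.ord.ToType) (hω : ℵ₀ < κ) :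
    Filter κ.ord.ToType where
  sets := {X | ∃ J : Set (Set κ.ord.ToType), #J < κ ∧
    ∀ z : Z κ, (∀ j ∈ J, Acc z j) → Thin (t z \ X)}
  univ_sets := ⟨∅, by simpa using hκ.pos, fun p _ => by simpa using thin_empty⟩
  sets_of_superset := by
    rintro X Y ⟨J, hJ, hX⟩ hXY
    exact ⟨J, hJ, fun p hp => (hX p hp).mono (sdiff_subset_sdiff_right hXY)⟩
  inter_sets := by
    rintro X Y ⟨J, hJ, hX⟩ ⟨K, hK, hY⟩
    refine ⟨J ∪ K, ?_, fun p hp => ?_⟩
    · exact (mk_union_le J K).trans_lt (add_lt_of_lt hκ.aleph0_le hJ hK)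
    · have h1 := hX p (fun i hi => hp i (Or.inl hi))
      have h2 := hY p (fun i hi => hp i (Or.inr hi))
      have h3 := thin_iUnion (ι := ULift.{u} Bool) (fun g => hcU_toType hκ hω g)
        (A := fun b => if b.down then t p \ X else t p \ Y)
        (fun b => by by_cases hb : b.down <;> simp [hb, h1, h2])
      refine h3.mono ?_
      rintro a ⟨ha, hXY⟩
      by_cases haX : a ∈ X
      · exact mem_iUnion.2 ⟨⟨false⟩, by simpa using ⟨ha, fun haY => hXY ⟨haX, haY⟩⟩⟩
      · exact mem_iUnion.2 ⟨⟨true⟩, by simpa using ⟨ha, haX⟩⟩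

theorem mem_flt (hκ : κ.IsRegular) (t : Z κ → Set κ.ord.ToType) (hω : ℵ₀ < κ)
    (X : Set κ.ord.ToType) : X ∈ flt hκ t hω ↔ ∃ J : Set (Set κ.ord.ToType), #J < κ ∧
    ∀ z : Z κ, (∀ j ∈ J, Acc z j) → Thin (t z \ X) := Iff.rfl

/-- If `κ` is regular, uncountable and `2 ^ μ ≤ κ` for all `μ < κ`, then there is a proper
`κ`-complete filter `F` containing the clubs and a family of `2 ^ κ` members of `F` such that
every member of `F` is contained in fewer than `κ` of them. -/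
theorem main (hκ : κ.IsRegular) (hω : ℵ₀ < κ) (hp : ∀ μ < κ, (2 : Cardinal.{u}) ^ μ ≤ κ) :
    ∃ F : Filter κ.ord.ToType, F.NeBot ∧
      (∀ S : Set (Set κ.ord.ToType), #S < κ → (∀ s ∈ S, s ∈ F) → ⋂₀ S ∈ F) ∧
      (∀ C, IsClub C → C ∈ F) ∧
      ∃ A : Set κ.ord.ToType → Set κ.ord.ToType, (∀ f, A f ∈ F) ∧
        ∀ X ∈ F, #{f | X ⊆ A f} < κ := by
  classical
  obtain ⟨t', ht', htd'⟩ := exists_pieces hκ hω
  have hX : #κ.ord.ToType = κ := by rw [Cardinal.mk_toType, card_ord]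
  obtain ⟨e⟩ : Nonempty (Z κ ↪ κ.ord.ToType × κ.ord.ToType) := by
    rw [← Cardinal.le_def, mk_prod, lift_id, hX, mul_eq_self hκ.aleph0_le]
    exact mk_Z_le hκ hp
  let t : Z κ → Set κ.ord.ToType := fun z => t' (e z)
  have ht : ∀ z, ¬ Thin (t z) := fun z => ht' _
  have htd : ∀ p q, p ≠ q → Disjoint (t p) (t q) := fun p q hpq =>
    htd' _ _ (fun h => hpq (e.injective h))
  have := nonempty_toType hκ
  have hno : ∀ a : κ.ord.ToType, ∃ b, a < b := fun a => by
    obtain ⟨b, hb⟩ := hcU_toType hκ hω (fun _ : PUnit.{u+1} => a)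
    exact ⟨b, hb ⟨⟩⟩
  have hsmall : ∀ J : Set (Set κ.ord.ToType), #J < κ → ∃ f, f ∉ J := by
    intro J hJ
    by_contra hcon
    push Not at hcon
    have h1 : J = Set.univ := eq_univ_of_forall hcon
    rw [h1, mk_univ, mk_set, hX] at hJ
    exact absurd (hJ.trans (cantor κ)) (lt_irrefl _)
  refine ⟨flt hκ t hω, ?_, ?_, ?_, ?_⟩
  · -- proper
    rw [Filter.neBot_iff]
    intro hbot
    have h0 : (∅ : Set κ.ord.ToType) ∈ flt hκ t hω := by rw [hbot]; trivial
    obtain ⟨J, hJ, hJ2⟩ := (mem_flt _ _ _ _).1 h0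
    obtain ⟨f, hf⟩ := hsmall J hJ
    obtain ⟨z, hz, _⟩ := exists_sep hκ J hJ f hf
    have := hJ2 z hz
    rw [sdiff_empty] at this
    exact ht _ this
  · -- completeness
    intro S hS hSF
    choose! J hJ hJ2 using fun s (hs : s ∈ S) => (mem_flt _ _ _ _).1 (hSF s hs)
    refine (mem_flt _ _ _ _).2 ⟨⋃ s : S, J s.1, ?_, fun p hp => ?_⟩
    · exact (card_iUnion_lt_iff_forall_of_isRegular hκ hS).2 (fun s => hJ s.1 s.2)
    · have h1 : ∀ s : S, Thin (t p \ s.1) := fun s =>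
        hJ2 s.1 s.2 p (fun i hi => hp i (mem_iUnion.2 ⟨s, hi⟩))
      refine (thin_iUnion (fun g => bdd_of_lt hκ g hS) h1).mono ?_
      rintro a ⟨ha, haS⟩
      rw [mem_sInter] at haS
      push Not at haS
      obtain ⟨s, hs, has⟩ := haS
      exact mem_iUnion.2 ⟨⟨s, hs⟩, ha, has⟩
  · -- clubs
    intro C hC
    refine (mem_flt _ _ _ _).2 ⟨∅, by simpa using hκ.pos, fun p _ => ?_⟩
    exact (thin_compl_of_isClub hno hC).mono (fun a ha => ha.2)
  · -- the family
    refine ⟨fun f => (⋃ z ∈ {z : Z κ | ¬ Acc z f}, t z)ᶜ, fun f => ?_, fun X hX => ?_⟩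
    · refine (mem_flt _ _ _ _).2 ⟨{f}, ?_, fun p hp => ?_⟩
      · simpa using one_lt_aleph0.trans_le hκ.aleph0_le
      · have hp' := hp f rfl
        refine thin_empty.mono ?_
        rintro a ⟨ha, ha2⟩
        simp only [mem_compl_iff, not_not, mem_iUnion] at ha2
        obtain ⟨z, hz, hx⟩ := ha2
        have hne : p ≠ z := by
          rintro rfl
          exact hz hp'
        exact absurd hx (Set.disjoint_left.1 (htd _ _ hne) ha)
    · obtain ⟨J, hJ, hJ2⟩ := (mem_flt _ _ _ _).1 hX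
      refine lt_of_le_of_lt (mk_le_mk_of_subset ?_) hJ
      intro f hf
      by_contra hfJ
      obtain ⟨z, hz, hzf⟩ := exists_sep hκ J hJ f hfJ
      refine ht z ((hJ2 z hz).mono ?_)
      intro a ha
      refine ⟨ha, fun haX => ?_⟩
      exact hf haX (mem_iUnion₂.2 ⟨z, hzf, ha⟩)

end Pool.Agent.K1H68.Galvin
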